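import Pool.Graph.R_pool_sql_team_seeded_620a6dc7.Results.MP_316c67_al.DivisorsRealised

set_option autoImplicit false

/-! Every common divisor of two groups is a Schützenberger group between them. -/

namespace Pool.Agent.Results.MP_316c67_al.CommonDivisors

open Pool.Agent.Results.MP_316c67_al.DivisorsRealised

universe u v

open Sg Vs

/-! ### The natural map from `IG(E(S))` to `S` -/

section nat

variable {S : Type u} [Semigroup S]

lemma nat_rel {w w' : FreeSemigroup (Idem S)} (h : conGen (IGRel S) w w') :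
    FreeSemigroup.lift (fun e : Idem S => e.1) w = FreeSemigroup.lift (fun e : Idem S => e.1) w' := by
  have : conGen (IGRel S) ≤ Con.ker (FreeSemigroup.lift (fun e : Idem S => e.1)) := by
    rw [Con.conGen_le]
    rintro _ _ ⟨e, f, g, hb, hg⟩
    change FreeSemigroup.lift (fun e : Idem S => e.1) _ = FreeSemigroup.lift (fun e : Idem S => e.1) _
    rw [map_mul]
    simp only [FreeSemigroup.lift_of]
    exact hg
  exact this h

/-- the natural map -/
noncomputable def pi (u : IG S) : S :=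
  Quotient.liftOn' u (fun w => FreeSemigroup.lift (fun e : Idem S => e.1) w) (fun _ _ h => nat_rel h)

lemma pi_mul (u u' : IG S) : pi (u * u') = pi u * pi u' := by
  refine Quotient.inductionOn₂' u u' (fun w w' => ?_)
  exact map_mul (FreeSemigroup.lift (fun e : Idem S => e.1)) w w'

lemma pi_of (e : Idem S) : pi (val (FreeSemigroup.of e)) = e.1 :=
  FreeSemigroup.lift_of (fun e : Idem S => e.1) e

end nat

section blocks

variable {G K Q : Type u} [Group G] [Group K] [Group Q] {α : K →* G} {φ : K →* Q}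

lemma pi_gen {x : Sg α φ} (h : x * x = x) : pi (gen x) = x := by
  rw [gen_of h, pi_of]

lemma pi_N2 (c : Fin 3 → Q) (m : Fin 3) : pi (N2 α φ c m) = d2 c m := by
  have hm := fin_ne m
  rw [N2, nf, pi_mul, pi_gen (idem_d2 (by simp)), pi_gen (idem_d2 (by simp))]
  simp [hm]

/-- Left multiplication of elements of `D₂`. -/
lemma left_N2 (u : IG (Sg α φ)) (c : Fin 3 → Q) (m : Fin 3) :
    (∃ c', u * N2 α φ c m = N2 α φ c' m) ∨ pi (u * N2 α φ c m) = z := by
  induction u using ig_induction generalizing c m with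
  | h1 e =>
    obtain ⟨x, hx⟩ := e
    rw [← gen_of hx]
    cases x with
    | t s a =>
      obtain ⟨h1, h2⟩ := of_idem_t hx
      exact Or.inl ⟨_, t_N2 c m h1 h2⟩
    | d2 c' m' =>
      rw [← N2_of (of_idem_d2 hx)]
      exact Or.inl ⟨_, N2_mul _ _ _ _⟩
    | d1 c' m' =>
      right
      rw [pi_mul, pi_gen hx, pi_N2]
      simp
    | z =>
      right
      rw [pi_mul, pi_gen hx, pi_N2]
      simp
  | h2 u v hu hv =>
    rw [mul_assoc]
    rcases hv c m with ⟨c', hh⟩ | h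
    · rw [hh]
      exact hu c' m
    · right
      rw [pi_mul, h]
      simp

lemma P2_inj : Function.Injective (P2 α φ) := by
  intro g g' h
  have h1 := congrArg pi h
  rw [P2, P2, pi_N2, pi_N2] at h1
  have h2 := (Sg.d2.inj h1).1
  exact congrFun h2 0

/-- The maximal subgroup of `D₂`. -/
lemma HClass_P2 : HClass (P2 α φ 1) = Set.range (P2 α φ) := by
  ext y
  constructor
  · rintro ⟨hR, hL⟩
    rcases greenR_cases hR with h | ⟨⟨s, hs⟩, ⟨s', hs'⟩⟩
    · exact ⟨1, h⟩
    rcases greenL_cases hL with h | ⟨⟨r, hr⟩, ⟨r', hr'⟩⟩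
    · exact ⟨1, h⟩
    rcases right_N2 s (fun _ => (1 : Q)) 0 with ⟨h, m', hh⟩ | h
    · rcases left_N2 r (fun _ => (1 : Q)) 0 with ⟨c', hc⟩ | h'
      · have e1 : y = N2 α φ (fun _ => 1 * h) m' := by rw [← hs, P2, hh]
        have e2 : y = N2 α φ c' 0 := by rw [← hr, P2, hc]
        have e3 : m' = 0 := by
          have := congrArg pi (e1.symm.trans e2)
          rw [pi_N2, pi_N2] at this
          exact (Sg.d2.inj this).2
        refine ⟨h, ?_⟩
        rw [e1, e3, P2, one_mul]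
      · exfalso
        change pi (r * P2 α φ 1) = z at h'
        rw [hr] at h'
        have h2 : pi (P2 α φ 1) = z := by
          rw [← hr', pi_mul, h']; simp
        rw [P2, pi_N2] at h2
        exact absurd h2 (by simp)
    · exfalso
      have h1 := h (f1 1 0)
      change act (P2 α φ 1 * s) (f1 1 0) = o at h1
      rw [hs] at h1
      have h2 : act (P2 α φ 1) (f1 1 0 : Vs α φ) = o := by
        rw [← hs', act_mul, h1, act_o]
      rw [P2, act_N2] at h2
      simp [sact] at h2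
  · rintro ⟨g, rfl⟩
    refine ⟨greenR_of (P2 α φ g) (P2 α φ g⁻¹) ?_ ?_, greenL_of (P2 α φ g) (P2 α φ g⁻¹) ?_ ?_⟩ <;>
      simp [P2_mul]

/-! ### The middle element -/

lemma X_transfer (k : K) (q : Q) : X α φ (φ k * q) = P1 α φ (α k) * P2 α φ q := by
  rw [← X_mul, ← transfer, mul_assoc, P2_mul, one_mul]

lemma X_eq_iff (q q' : Q) : X α φ q = X α φ q' ↔ ∃ k : K, α k = 1 ∧ q = φ k * q' := by
  constructor
  · intro h
    have h1 := congrArg (fun u => act u (f1 1 0)) h
    simp only [X, P1, P2, act_P1P2] at h1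
    have h2 := (Vs.y.inj h1).1
    obtain ⟨k, h3, h4⟩ := Quotient.exact h2
    exact ⟨k, by simpa using h3.symm, h4⟩
  · rintro ⟨k, h1, rfl⟩
    rw [X_transfer, h1, X]

lemma X_mem_iff (q : Q) : X α φ q ∈ HClass (X α φ 1) ↔ ∃ k : K, q = φ k := by
  constructor
  · rintro ⟨-, hL⟩
    rcases greenL_cases hL with h | ⟨⟨r, hr⟩, -⟩
    · obtain ⟨k, -, h2⟩ := (X_eq_iff (α := α) 1 q).1 h
      refine ⟨k⁻¹, ?_⟩
      rw [map_inv]
      exact (inv_eq_of_mul_eq_one_right h2.symm).symm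
    · rcases left_N1 r (fun _ => (1 : G)) 0 with ⟨c', hc⟩ | h'
      · have h1 : act (r * X α φ 1) (f1 1 0 : Vs α φ) = act (X α φ q) (f1 1 0) := by rw [hr]
        rw [X, X, ← mul_assoc, P1, hc, P2, P2, act_P1P2, act_P1P2] at h1
        obtain ⟨k, -, h4⟩ := Quotient.exact (Vs.y.inj h1).1
        refine ⟨k⁻¹, ?_⟩
        rw [map_inv]
        exact (inv_eq_of_mul_eq_one_right h4.symm).symm
      · exfalso
        have h1 : act (r * X α φ 1) (f1 1 0 : Vs α φ) = act (X α φ q) (f1 1 0) := by rw [hr]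
        have h3 := h' (f1 1 0)
        rw [X, ← mul_assoc, act_mul] at h1
        change act (P2 α φ 1) (act (r * N1 α φ (fun _ => 1) 0) (f1 1 0)) = _ at h1
        rw [h3, act_o, X, P1, P2, act_P1P2] at h1
        exact absurd h1 (by simp)
  · rintro ⟨k, rfl⟩
    refine ⟨greenR_of (P2 α φ (φ k)) (P2 α φ (φ k)⁻¹) ?_ ?_, greenL_of (P1 α φ (α k))
      (P1 α φ (α k)⁻¹) ?_ ?_⟩
    · simp [X_mul]
    · simp [X_mul]
    · rw [X, ← mul_assoc, P1_mul, mul_one, transfer]
    · rw [← transfer, ← mul_assoc, P1_mul, inv_mul_cancel, X]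

/-- Right multiplication by `φ(k)⁻¹` as an element of the Schützenberger group. -/
noncomputable def sf (k : K) : Schutz (X α φ 1) :=
  ⟨(fun h => ⟨h.1 * P2 α φ (φ k)⁻¹, by
      obtain ⟨q, hq⟩ := HClass_X_sub h.2
      have h2 := h.2
      rw [hq, X_mem_iff] at h2
      obtain ⟨k', rfl⟩ := h2
      rw [hq, X_mul, X_mem_iff]
      exact ⟨k' * k⁻¹, by simp⟩⟩ : HClass (X α φ 1) → HClass (X α φ 1)),
    ⟨(P2 α φ (φ k)⁻¹ : IG (Sg α φ)), fun h => by rw [← WithOne.coe_mul]⟩⟩

lemma sf_mul (k k' : K) : (sf (k * k') : Schutz (X α φ 1)) = sf k * sf k' := by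
  apply Subtype.ext
  funext h
  apply Subtype.ext
  change h.1 * P2 α φ (φ (k * k'))⁻¹ = h.1 * P2 α φ (φ k')⁻¹ * P2 α φ (φ k)⁻¹
  rw [mul_assoc, P2_mul, map_mul, mul_inv_rev]

lemma sf_eq_iff (k k' : K) :
    (sf k : Schutz (X α φ 1)) = sf k' ↔ ∃ c : K, α c = 1 ∧ (φ k)⁻¹ = φ c * (φ k')⁻¹ := by
  constructor
  · intro h
    have h1 := congrArg (fun f => (f.1 : HClass (X α φ 1) → HClass (X α φ 1))
      ⟨X α φ 1, (X_mem_iff 1).2 ⟨1, by simp⟩⟩) h
    have h2 : X α φ 1 * P2 α φ (φ k)⁻¹ = X α φ 1 * P2 α φ (φ k')⁻¹ := congrArg Subtype.val h1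
    rw [X_mul, X_mul, one_mul, one_mul] at h2
    exact (X_eq_iff _ _).1 h2
  · rintro ⟨c, h1, h2⟩
    apply Subtype.ext
    funext h
    apply Subtype.ext
    change h.1 * P2 α φ (φ k)⁻¹ = h.1 * P2 α φ (φ k')⁻¹
    obtain ⟨q, hq⟩ := HClass_X_sub h.2
    have h3 := h.2
    rw [hq, X_mem_iff] at h3
    obtain ⟨l, rfl⟩ := h3
    rw [hq, X_mul, X_mul, X_eq_iff]
    refine ⟨l * c * l⁻¹, by simp [h1], ?_⟩
    rw [h2]
    simp [mul_assoc]

lemma sf_surj : Function.Surjective (sf : K → Schutz (X α φ 1)) := by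
  have hx0 : X α φ 1 ∈ HClass (X α φ 1) := (X_mem_iff 1).2 ⟨1, by simp⟩
  rintro ⟨π, s, hs⟩
  cases s with
  | one =>
    refine ⟨1, ?_⟩
    apply Subtype.ext
    funext h
    apply Subtype.ext
    change h.1 * P2 α φ (φ 1)⁻¹ = _
    obtain ⟨q, hq⟩ := HClass_X_sub h.2
    have h3 : ((π : HClass (X α φ 1) → HClass (X α φ 1)) h).1 = h.1 := by
      have := hs h
      rw [mul_one] at this
      exact WithOne.coe_inj.1 this
    rw [h3, hq, X_mul, map_one, inv_one, mul_one]
  | coe u =>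
    have hs' : ∀ h : HClass (X α φ 1),
        ((π : HClass (X α φ 1) → HClass (X α φ 1)) h).1 = h.1 * u := by
      intro h
      have := hs h
      rw [← WithOne.coe_mul] at this
      exact WithOne.coe_inj.1 this
    let x₀ : HClass (X α φ 1) := ⟨X α φ 1, hx0⟩
    have hmem := ((π : HClass (X α φ 1) → HClass (X α φ 1)) x₀).2
    rw [hs' x₀] at hmem
    obtain ⟨q, hq⟩ := HClass_X_sub hmem
    change X α φ 1 * u = X α φ q at hq
    change X α φ 1 * u ∈ HClass (X α φ 1) at hmem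
    have hE : ∃ b, P2 α φ 1 * u = P2 α φ b := by
      rcases right_N2 u (fun _ => (1 : Q)) 0 with ⟨h, m', hh⟩ | h
      · have e1 : N1 α φ (fun _ => 1) 0 * N2 α φ (fun _ => 1 * h) m' =
            N1 α φ (fun _ => 1) 0 * N2 α φ (fun _ => q) 0 := by
          rw [← hh, ← mul_assoc]; exact hq
        have e3 : m' = 0 := by
          have := congrArg (fun u => act u (f1 1 0)) e1
          simp only [act_P1P2] at this
          exact (Vs.y.inj this).2
        refine ⟨h, ?_⟩
        rw [P2, hh, e3, P2, one_mul]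
      · exfalso
        have h3 := h (act (P1 α φ 1) (f1 1 0))
        change act (P2 α φ 1 * u) _ = o at h3
        rw [← act_mul, ← mul_assoc] at h3
        change act (X α φ 1 * u) _ = o at h3
        rw [hq, X, P1, P2, act_P1P2] at h3
        simp at h3
    obtain ⟨b, hb⟩ := hE
    have hXb : X α φ 1 * u = X α φ b := by
      rw [X, mul_assoc, hb, X]
    rw [hXb, X_mem_iff] at hmem
    obtain ⟨k, rfl⟩ := hmem
    refine ⟨k⁻¹, ?_⟩
    apply Subtype.ext
    funext h
    apply Subtype.ext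
    change h.1 * P2 α φ (φ k⁻¹)⁻¹ = _
    obtain ⟨q', hq'⟩ := HClass_X_sub h.2
    rw [hs' h, hq', map_inv, inv_inv, ← hb, ← mul_assoc, X_mul, mul_one]

end blocks

/-- two surjective homomorphisms with the same fibres have isomorphic targets -/
lemma equiv_of_fibres {K : Type u} {M : Type v} {Γ : Type u} [Mul K] [Mul M] [Mul Γ] (f : K → M)
    (p : K → Γ) (fm : ∀ a b, f (a * b) = f a * f b) (pm : ∀ a b, p (a * b) = p a * p b)
    (hf : Function.Surjective f) (hp : Function.Surjective p) (h : ∀ a b, f a = f b ↔ p a = p b) :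
    Nonempty (M ≃* Γ) := by
  let g : Γ → M := fun γ => f (Function.surjInv hp γ)
  have hg : ∀ a, g (p a) = f a := fun a => (h _ _).2 (Function.surjInv_eq hp _)
  have gm : ∀ a b, g (a * b) = g a * g b := by
    intro a b
    obtain ⟨a, rfl⟩ := hp a
    obtain ⟨b, rfl⟩ := hp b
    rw [← pm, hg, hg, hg, fm]
  have gb : Function.Bijective g := by
    constructor
    · intro a b hab
      obtain ⟨a, rfl⟩ := hp a
      obtain ⟨b, rfl⟩ := hp b
      rw [hg, hg] at hab
      exact (h _ _).1 hab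
    · intro m
      obtain ⟨a, rfl⟩ := hf m
      exact ⟨p a, hg a⟩
  exact ⟨(MulEquiv.ofBijective (⟨g, gm⟩ : Γ →ₙ* M) gb).symm⟩

/-- **Theorem.** Let `G₁` and `G₂` be arbitrary groups (finite or infinite) and let `K₁ / L₁ ≃ K₂ / L₂` be a common
divisor of them. There is a semigroup `S`, finite if `G₁` and `G₂` are, and an element `x ∈ IG(E_S)` with a minimal
r-factorisation `w₁ w₂` such that the maximal subgroup of `D_{w₁}` is isomorphic to `G₁`, the maximal subgroup of
`D_{w₂}` is isomorphic to `G₂`, and the Schützenberger group of the `ℋ`-class of `x` is isomorphic to `K₁ / L₁`. -/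
theorem result (G₁ G₂ : Type u) [Group G₁] [Group G₂] (K₁ : Subgroup G₁) (L₁ : Subgroup K₁) [L₁.Normal]
    (K₂ : Subgroup G₂) (L₂ : Subgroup K₂) [L₂.Normal] (θ : K₁ ⧸ L₁ ≃* K₂ ⧸ L₂) :
    ∃ (S : Type u) (_ : Semigroup S), (Finite G₁ → Finite G₂ → Finite S) ∧
      ∃ (x : IG S) (w₁ w₂ : FreeSemigroup (Idem S)), IsMinRFact [w₁, w₂] x ∧
        MaxSubgroupIso (val w₁) G₁ ∧ MaxSubgroupIso (val w₂) G₂ ∧
        Nonempty (Schutz x ≃* (K₁ ⧸ L₁)) := by
  let Kf : Subgroup (K₁ × K₂) := MonoidHom.eqLocus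
    ((θ.toMonoidHom.comp (QuotientGroup.mk' L₁)).comp (MonoidHom.fst K₁ K₂))
    ((QuotientGroup.mk' L₂).comp (MonoidHom.snd K₁ K₂))
  let α : Kf →* G₁ := K₁.subtype.comp ((MonoidHom.fst K₁ K₂).comp Kf.subtype)
  let φ : Kf →* G₂ := K₂.subtype.comp ((MonoidHom.snd K₁ K₂).comp Kf.subtype)
  have hKf : ∀ k : Kf, θ (QuotientGroup.mk' L₁ k.1.1) = QuotientGroup.mk' L₂ k.1.2 := fun k => k.2
  refine ⟨Sg α φ, inferInstance, fun h1 h2 => inferInstance, X α φ 1, w1 α φ, w2 α φ, minRFact, ?_, ?_, ?_⟩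
  · refine ⟨P1 α φ 1, ?_, ?_, P1 α φ, P1_inj, fun a b => (P1_mul a b).symm, HClass_P1.symm⟩
    · rw [P1_mul, one_mul]
    · rw [val_w1]; exact ⟨_, greenR_refl _, greenL_refl _⟩
  · refine ⟨P2 α φ 1, ?_, ?_, P2 α φ, P2_inj, fun a b => (P2_mul a b).symm, HClass_P2.symm⟩
    · rw [P2_mul, one_mul]
    · rw [val_w2]; exact ⟨_, greenR_refl _, greenL_refl _⟩
  · refine equiv_of_fibres (K := Kf) sf (fun k => QuotientGroup.mk' L₁ k.1.1) sf_mul (fun a b => ?_)
      sf_surj ?_ ?_
    · simp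
    · intro γ
      obtain ⟨a, rfl⟩ := QuotientGroup.mk'_surjective L₁ γ
      obtain ⟨b, hb⟩ := QuotientGroup.mk'_surjective L₂ (θ (QuotientGroup.mk' L₁ a))
      exact ⟨⟨(a, b), hb.symm⟩, rfl⟩
    · intro k k'
      rw [sf_eq_iff]
      constructor
      · rintro ⟨c, h1, h2⟩
        have c1 : c.1.1 = 1 := Subtype.ext h1
        have c2 : (k.1.2)⁻¹ = c.1.2 * (k'.1.2)⁻¹ := Subtype.ext h2
        apply θ.injective
        rw [hKf, hKf]
        have h3 := hKf c
        rw [c1, map_one, map_one] at h3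
        have h4 := congrArg (QuotientGroup.mk' L₂) c2
        rw [map_mul, ← h3, one_mul, map_inv, map_inv] at h4
        exact inv_injective h4
      · intro h
        change QuotientGroup.mk' L₁ k.1.1 = QuotientGroup.mk' L₁ k'.1.1 at h
        have h2 : QuotientGroup.mk' L₂ k.1.2 = QuotientGroup.mk' L₂ k'.1.2 := by
          rw [← hKf, ← hKf, h]
        refine ⟨⟨(1, (k.1.2)⁻¹ * k'.1.2), ?_⟩, rfl, ?_⟩
        · change θ (QuotientGroup.mk' L₁ 1) = QuotientGroup.mk' L₂ ((k.1.2)⁻¹ * k'.1.2)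
          rw [map_one, map_one, map_mul, map_inv, h2, inv_mul_cancel]
        · change ((k.1.2 : K₂) : G₂)⁻¹ = (((k.1.2)⁻¹ * k'.1.2 : K₂) : G₂) * ((k'.1.2 : K₂) : G₂)⁻¹
          simp

end Pool.Agent.Results.MP_316c67_al.CommonDivisors
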